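import Pool.Agent.Helper78.PM.Defs

/-!
# Search for coins for which a parallel algorithm with small memories has the answer `true`

The algorithms (`Machine`, `results`, `coins`, `acc`, `Few`) are defined in
`Pool.Agent.Helper78.PM.Defs`.
-/

namespace Pool.Agent.Helper52.SM

open Pool.Agent.Helper81.CC Pool.Agent.Helper78.PM

/-- Search for coins with the answer `true`: for every algorithm `A` with at most
`(log₂ |x| + 2) ^ (e / (e + 1))` threads (whose stages read at most `c log₂ |x| + c` coins, and whose
memories have room for `c log₂ |x| + c` bits) there is a deterministic polynomial-time function `f`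
such that, for all inputs `x` for which the answer is `true` with probability at least
`1 / (log₂ |x| + 2) ^ k`, `f x` is (the list of the bits of) a coin string with the answer `true`. -/
def FindsAnswers (c e k : ℕ) : Prop := ∀ A : Machine, Few e A → ∃ f : List Bool → List Bool,
  PolyTimeComputable (encOf (List Bool)) (encOf (List Bool)) f ∧ ∀ x,
    2 ^ A.m x ≤ (Nat.log 2 x.length + 2) ^ k * acc A c x →
    ∃ y : Fin (A.m x) → Bool, A.out (x, results A c x (coins y)) = true ∧ f x = List.ofFn y

end Pool.Agent.Helper52.SM
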