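import Pool.Agent.Helper52.SX.Goals
import Pool.Agent.Helper78.PM.Goals
import Pool.Agent.Helper52.SM.Defs

/-!
# Project SM: search for coins for the algorithms of ParallelMemory

All statements of the projects DT, JT, AO, PM, CS, SX are proved and may be used
(`Pool.Agent.Helper52.SX.Final`, `Pool.Agent.Helper78.PM.Final` and their imports).
-/

namespace Pool.Agent.Helper52.SM

open Pool.Agent.Helper81.CC Pool.Agent.Helper78.DT Pool.Agent.Helper51.ZP Pool.Agent.Helper65.CS
open Pool.Agent.Helper52.SX (Tup ixv tv fract NFT rstT lossT PgtStmt NutStmt)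
open Pool.Agent.Helper78
open scoped Classical

/-! ### Part A: restricted algorithms -/

/-- The value of the coin `v` if it is named in `s`, and `β` otherwise. -/
def ovb (s : List (ℕ × Bool)) (v : ℕ) (β : Bool) : Bool :=
  if s.contains (v, true) then true else if s.contains (v, false) then false else β

/-- The coins `b`, overwritten by `s`. -/
def ov (s : List (ℕ × Bool)) (b : ℕ → Bool) (v : ℕ) : Bool := ovb s v (b v)

/-- The bits `a` of the stage `i` with the memory `M`, corrected by `s`. -/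
def fixa (act : PM.View → ℕ) (x : List Bool) (s : List (ℕ × Bool)) (i : ℕ) (M : PM.Mem)
    (a : List Bool) : List Bool :=
  a.foldl (fun a' β => a' ++ [ovb s (act (x, i, M, a') - 4) β]) []

/-- The memory `M`, corrected by `s`. -/
def fixm (act : PM.View → ℕ) (x : List Bool) (s : List (ℕ × Bool)) (M : PM.Mem) : PM.Mem :=
  M.foldl (fun M' e => M' ++ [(e.1, fixa act x s e.1 M' e.2)]) []

/-- The next action of the restricted thread: it reads the same coins, corrects their values, and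
respects the bounds of the original thread. -/
def actR (act : PM.View → ℕ) (c : ℕ) (x : List Bool) (s : List (ℕ × Bool)) (i : ℕ) (M : PM.Mem)
    (a : List Bool) : ℕ :=
  if 4 ≤ act (x, i, fixm act x s M, fixa act x s i (fixm act x s M) a) then
    (if a.length < PM.bd c x then
      act (x, i, fixm act x s M, fixa act x s i (fixm act x s M) a) else 0)
  else if act (x, i, fixm act x s M, fixa act x s i (fixm act x s M) a) = 3 then
    (if PM.msize M + a.length ≤ PM.bd c x then 3 else 0)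
  else act (x, i, fixm act x s M, fixa act x s i (fixm act x s M) a)

/-- **RSM.** The simulation.

Proof. `(fixa ... a).length = a.length`, `msize (fixm ... M) = msize M`. For `k ≤ bd c x`:
`fixa ... (fixm M) (bits act' x' b i M k) = bits act x (ov s b) i (fixm M) k` (induction on `k`;
`foldl_append`; the lengths are `≤ k < bd c x`, so `act'` reads iff `act` does). From `k = bd c x` on,
`bits act' x' b i M k` is constant (either it has stopped, or its length is `bd c x` and `act'` does not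
read). Then induction on `n` (`fixm (M ++ [(i, a)]) = fixm M ++ [(i, fixa i (fixm M) a)]`). -/
def RsmStmt : Prop := ∀ (act act' : PM.View → ℕ) (c : ℕ) (x x' : List Bool)
  (s : List (ℕ × Bool)) (b : ℕ → Bool), PM.bd c x ≤ PM.bd c x' →
  (∀ i M a, act' (x', i, M, a) = actR act c x s i M a) → ∀ n i M,
  PM.run act' c x' b n i M = PM.run act c x (ov s b) n i (fixm act x s M)

/-- The input of the restricted algorithm. -/
def code (x : List Bool) (s : List (ℕ × Bool)) (N : ℕ) : List Bool :=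
  encOf (List Bool × List (ℕ × Bool) × ℕ) (x, s, N)

/-- **RMC.** Restricted algorithms are algorithms. (May assume `RsmStmt`.)

Proof. `A'.m`, `A'.T`, `A'.r` decode the input (`PolyTime.parse`, `PolyTime.ofData` in
`Pool.Agent.Helper81.CompC`; value `0` if it is not a code), `A'.act (j, x', i, M, a)` is
`actR (fun z => A.act (j, z)) c x s i M a`, in polynomial time by `PolyTime.foldl_inv` or
`PolyTime.foldl_add` (the lengths of the states are those of the prefixes), `A'.out (x', v) =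
A.out (x, v)`. `Few e A'`: `x.length ≤ (code x s N).length`, and `0 ^ (e + 1) = 0`. Then RSM with
`fixm [] = []`. -/
def RmcStmt : Prop := ∀ (A : PM.Machine) (c e : ℕ), PM.Few e A → ∃ A' : PM.Machine, PM.Few e A' ∧
  ∀ (x : List Bool) (s : List (ℕ × Bool)) (N : ℕ), A'.m (code x s N) = A.m x ∧
    ∀ b : ℕ → Bool, A'.out (code x s N, PM.results A' c (code x s N) b) =
      A.out (x, PM.results A c x (ov s b))

/-- The probability of the answer `true`, for coins overwritten by `s`. -/
noncomputable def phi (A : PM.Machine) (c : ℕ) (x : List Bool) (s : List (ℕ × Bool)) : ℝ :=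
  pr fun y : Fin (A.m x) → Bool => A.out (x, PM.results A c x (ov s (PM.coins y))) = true

/-- `g` approximates the probabilities, in units of `1 / (lg N) ^ k`. -/
def CtM (A : PM.Machine) (c k : ℕ) (g : List Bool × List (ℕ × Bool) × ℕ → ℕ) : Prop :=
  ∀ (x : List Bool) (s : List (ℕ × Bool)) (N : ℕ),
    |(g (x, s, N) : ℝ) / (lg N : ℝ) ^ k - phi A c x s| ≤ 1 / (lg N : ℝ) ^ k

/-- **CTM.** Counting for restricted algorithms. (May assume `RmcStmt` and
`∀ c e k, PM.Approximable c e k`, which is in `Pool.Agent.Helper78.PM.main`; compare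
`Pool.Agent.Helper9.SX.ctt`, in particular its lemma `num`.)

Proof. `h` from `Approximable c e (k + 1)` for `A'`; with `D = Nat.log 2 (code x s N).length + 2 ≥ lg N`
(as `N ≤ (code x s N).length`) let `g (x, s, N) = (2 (lg N)^k h + D^(k+1)) / (2 D^(k+1))`. -/
def CtmStmt : Prop := (∀ c e k : ℕ, PM.Approximable c e k) → ∀ (A : PM.Machine) (c e k : ℕ),
  PM.Few e A → ∃ g : List Bool × List (ℕ × Bool) × ℕ → ℕ, PolyTime g ∧ CtM A c k g

/-! ### Part B: pruned lists -/

/-- The labels: `inl v`: the thread has ended with the result `v`; `inr (i, M)`: the stage `i` has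
changed the memory to `M`, which is light. -/
abbrev Lab := Bool ⊕ (ℕ × PM.Mem)

/-- The possible lists of bits read by a stage in `k` steps. -/
def lvM (act : PM.View → ℕ) (x : List Bool) (i : ℕ) (M : PM.Mem) (k : ℕ) : List (List Bool) :=
  (fun H : List (List Bool) => H.flatMap fun a =>
    if 4 ≤ act (x, i, M, a) then [a ++ [false], a ++ [true]] else [a])^[k] [[]]

/-- The literals of a stage: the coins read and their values. -/
def lit (act : PM.View → ℕ) (x : List Bool) (i : ℕ) (M : PM.Mem) (a : List Bool) :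
    List (ℕ × Bool) :=
  (List.range a.length).map fun k => (act (x, i, M, a.take k) - 4, a.getD k false)

/-- The pruned list of a thread, for its last `n` stages, from the stage `i` and the memory `M` with
the literals `l`. -/
def pl (act : PM.View → ℕ) (c : ℕ) (x : List Bool) (P : ℕ → PM.Mem → Bool) :
    ℕ → ℕ → PM.Mem → List (ℕ × Bool) → List (List (ℕ × Bool) × Lab)
  | 0, _, _, l => [(l, Sum.inl false)]
  | n + 1, i, M, l => ((lvM act x i M (PM.bd c x)).flatMap fun a =>
      if act (x, i, M, a) = 1 then [(l ++ lit act x i M a, Sum.inl false)]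
      else if act (x, i, M, a) = 2 then [(l ++ lit act x i M a, Sum.inl true)]
      else if act (x, i, M, a) = 3 ∧ PM.msize M + a.length ≤ PM.bd c x then
        (if P i (M ++ [(i, a)]) then
            pl act c x P n (i + 1) (M ++ [(i, a)]) (l ++ lit act x i M a)
          else [(l ++ lit act x i M a, Sum.inr (i, M ++ [(i, a)]))])
      else []) ++ pl act c x P n (i + 1) M l

/-- The pruned run. -/
def runP (act : PM.View → ℕ) (c : ℕ) (x : List Bool) (P : ℕ → PM.Mem → Bool) (b : ℕ → Bool) :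
    ℕ → ℕ → PM.Mem → Lab
  | 0, _, _ => Sum.inl false
  | n + 1, i, M =>
    if act (x, i, M, PM.bits act x b i M (PM.bd c x)) = 1 then Sum.inl false
    else if act (x, i, M, PM.bits act x b i M (PM.bd c x)) = 2 then Sum.inl true
    else if act (x, i, M, PM.bits act x b i M (PM.bd c x)) = 3 ∧
        PM.msize M + (PM.bits act x b i M (PM.bd c x)).length ≤ PM.bd c x then
      (if P i (M ++ [(i, PM.bits act x b i M (PM.bd c x))]) then
          runP act c x P b n (i + 1) (M ++ [(i, PM.bits act x b i M (PM.bd c x))])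
        else Sum.inr (i, M ++ [(i, PM.bits act x b i M (PM.bd c x))]))
    else runP act c x P b n (i + 1) M

/-- The label of the first satisfied term. -/
def evg {β : Type} (d : β) (b : ℕ → Bool) : List (List (ℕ × Bool) × β) → β
  | [] => d
  | e :: F => if ∀ p ∈ e.1, b p.1 = p.2 then e.2 else evg d b F

/-- **LVM.** The leaves of a stage.

Proof. Induction on `k` (`Function.iterate_succ_apply'`). An element `a` of the `k`th list has either
length `k` or `act (x, i, M, a) < 4`, and reads at all proper prefixes; so extensions of different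
elements are different. -/
def LvmStmt : Prop := ∀ (act : PM.View → ℕ) (x : List Bool) (i : ℕ) (M : PM.Mem) (k : ℕ),
  (lvM act x i M k).Nodup ∧ (lvM act x i M k).length ≤ 2 ^ k ∧
  (∀ a ∈ lvM act x i M k, a.length ≤ k) ∧
  ∀ b : ℕ → Bool, PM.bits act x b i M k ∈ lvM act x i M k ∧
    ∀ a ∈ lvM act x i M k,
      ((∀ p ∈ lit act x i M a, b p.1 = p.2) ↔ a = PM.bits act x b i M k)

/-- **SEM.** The pruned list computes the pruned run. (May assume `LvmStmt`.)

Proof. First claim: induction on `n`, for all `i`, `M`, `l`. Let `a₀ = bits ...`. The blocks of the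
leaves `a ≠ a₀` contain no satisfied terms (all their terms contain `lit a`, by an easy induction all
terms of `pl ... l` contain `l`). If `a₀` ends the thread or is light, its block is one satisfied term;
if it is stored, then `b` satisfies `l ++ lit a₀`, the block has the value of the run (induction), and
some term of it is satisfied (its last one is `(l ++ lit a₀, inl false)`); otherwise the block is empty.
Second and third claim: induction on `n`. -/
def SemStmt : Prop := ∀ (act : PM.View → ℕ) (c : ℕ) (x : List Bool) (P : ℕ → PM.Mem → Bool)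
  (n i : ℕ) (M : PM.Mem) (l : List (ℕ × Bool)),
  (∀ b : ℕ → Bool, (∀ p ∈ l, b p.1 = p.2) →
    evg (Sum.inl false) b (pl act c x P n i M l) = runP act c x P b n i M ∧
    ∃ e ∈ pl act c x P n i M l, ∀ p ∈ e.1, b p.1 = p.2) ∧
  (∀ (b : ℕ → Bool) (v : Bool), runP act c x P b n i M = Sum.inl v →
    PM.run act c x b n i M = v) ∧
  (l.length ≤ PM.msize M → PM.msize M ≤ PM.bd c x →
    ∀ e ∈ pl act c x P n i M l, e.1.length ≤ 2 * PM.bd c x)

/-- The memory before the stage `i` (`none` if the thread has ended). -/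
def mem (act : PM.View → ℕ) (c : ℕ) (x : List Bool) (b : ℕ → Bool) : ℕ → Option PM.Mem
  | 0 => some []
  | i + 1 => match mem act c x b i with
    | none => none
    | some M =>
      if act (x, i, M, PM.bits act x b i M (PM.bd c x)) = 1 ∨
          act (x, i, M, PM.bits act x b i M (PM.bd c x)) = 2 then none
      else if act (x, i, M, PM.bits act x b i M (PM.bd c x)) = 3 ∧
          PM.msize M + (PM.bits act x b i M (PM.bd c x)).length ≤ PM.bd c x then
        some (M ++ [(i, PM.bits act x b i M (PM.bd c x))])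
      else some M

/-- **MEM.** Light labels.

Proof. Induction on `n`. -/
def MemStmt : Prop := ∀ (act : PM.View → ℕ) (c : ℕ) (x : List Bool) (P : ℕ → PM.Mem → Bool)
  (b : ℕ → Bool) (n i : ℕ) (M : PM.Mem), mem act c x b i = some M →
  (∀ e ∈ M, e.1 < i) ∧ ∀ (j : ℕ) (M' : PM.Mem), runP act c x P b n i M = Sum.inr (j, M') →
    mem act c x b (j + 1) = some M' ∧ P j M' = false

/-- The probability that the memory before the stage `i` is `M`. -/
noncomputable def qm (act : PM.View → ℕ) (c : ℕ) (x : List Bool) (m : ℕ) (s : List (ℕ × Bool))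
    (i : ℕ) (M : PM.Mem) : ℝ :=
  pr fun y : Fin m → Bool => mem act c x (ov s (PM.coins y)) i = some M

/-- The memory `M` is heavy after the stage `i`. -/
noncomputable def Pe (act : PM.View → ℕ) (c : ℕ) (x : List Bool) (m : ℕ) (s : List (ℕ × Bool))
    (ε : ℝ) (i : ℕ) (M : PM.Mem) : Bool := decide (ε ≤ qm act c x m s (i + 1) M)

/-- **LEN.** The length of the pruned list. (May assume `LvmStmt`, `MemStmt`.)

Proof. Induction on `n`; `L = 2 ^ bd c x`. The leaves which end the thread or are light give at most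
`L` entries. The heavy leaves `a` give at most `(1 + n L)(1 + n q_a/ε)` each, with
`q_a = qm (i+1) (M ++ [(i,a)]) ≥ ε`, and the rest `(1 + n L)(1 + n q_0/ε)`, `q_0 = qm (i+1) M`. Now
`1 ≤ q_a/ε`, and `∑_a q_a + q_0 ≤ qm i M`: the events are disjoint (different values of
`mem ... (i+1)`; the leaves are different) and contained in `mem ... i = some M` (MEM: the stages in
`mem ... i` are `< i`, so `mem ... (i+1) = M ++ [(i,a)]` only if the stage `i` has stored `a` in `M`, and
`mem ... (i+1) = M` only if it has stored nothing). Sum: `L + (1 + n L)(1 + (n+1) qm i M/ε)`. -/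
def LenStmt : Prop := ∀ (act : PM.View → ℕ) (c : ℕ) (x : List Bool) (m : ℕ)
  (s : List (ℕ × Bool)) (ε : ℝ), 0 < ε → ∀ (n i : ℕ) (M : PM.Mem) (l : List (ℕ × Bool)),
  (∀ e ∈ M, e.1 < i) →
  ((pl act c x (Pe act c x m s ε) n i M l).length : ℝ) ≤
    (1 + n * 2 ^ PM.bd c x) * (1 + n * qm act c x m s i M / ε)

/-- Restriction by `s` and normalization of a list with any labels. -/
def clg {β : Type} (m : ℕ) (s : List (ℕ × Bool)) (F : List (List (ℕ × Bool) × β)) :
    List (List (ℕ × Bool) × β) :=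
  (F.filter fun e => e.1.all fun p => !s.contains (p.1, !p.2) && !e.1.contains (p.1, !p.2) &&
    !(decide (m ≤ p.1) && p.2)).map fun e =>
    ((e.1.filter fun p => decide (p.1 < m) && !s.contains p).dedup, e.2)

/-- **CLG.** Restriction and normalization.

Proof. A term is removed iff it is not satisfied by any `ov s (coins y)`; the literals which are
removed from the others are always true. -/
def ClgStmt : Prop := ∀ (β : Type) (m : ℕ) (s : List (ℕ × Bool))
  (F : List (List (ℕ × Bool) × β)) (d : β), (s.map Prod.fst).Nodup → (∀ p ∈ s, p.1 < m) →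
  (clg m s F).length ≤ F.length ∧
  (∀ e' ∈ clg m s F, e'.1.Nodup ∧ (∀ p ∈ e'.1, p.1 < m ∧ (p.1, !p.2) ∉ e'.1) ∧
    ∃ e ∈ F, e'.1.length ≤ e.1.length ∧ e'.2 = e.2) ∧
  ∀ y : Fin m → Bool,
    evg d (PM.coins y) (clg m s F) = evg d (ov s (PM.coins y)) F ∧
    ((∃ e ∈ F, ∀ p ∈ e.1, ov s (PM.coins y) p.1 = p.2) →
      ∃ e ∈ clg m s F, ∀ p ∈ e.1, PM.coins y p.1 = p.2)

/-- **LGT.** Light labels are rare. (May assume `Pool.Agent.Helper78.DT.KeyStmt`, which is proved.)

Proof. Let `f = tdl m (G.map fun e => (e.1, B e.2))`, of width `W`. If `B (evg ...) = true`, then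
`First f i y` for some `i` whose label `v` in `G` has `B v = true` (`B d = false`), and
`First f i y → evg d (coins y) G = v`, so `p = pr (First f i) ≤ ε` and `p ≤ √ε p^(1/2)`. Sum over `i`,
with KEY for `η = 1/2`. -/
def LgtStmt : Prop := ∀ (β : Type) (m W : ℕ) (G : List (List (ℕ × Bool) × β)) (d : β)
  (B : β → Bool) (ε : ℝ),
  (∀ e ∈ G, e.1.Nodup ∧ e.1.length ≤ W ∧ ∀ p ∈ e.1, p.1 < m ∧ (p.1, !p.2) ∉ e.1) → 0 < ε →
  (∀ v : β, B v = true → pr (fun y : Fin m → Bool => evg d (PM.coins y) G = v) ≤ ε) →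
  B d = false →
  pr (fun y : Fin m → Bool => B (evg d (PM.coins y) G) = true) ≤ √ε * 4 ^ W

/-- **THR.** The two decision lists of a thread. (May assume `SemStmt`, `MemStmt`, `LenStmt`,
`ClgStmt`, `LgtStmt`.)

Proof. `G = clg m s (pl act c x (Pe ... ε) T 0 [] [])`, `V` and `O` are `G` with the labels
`inl v ↦ v, inr _ ↦ false` and `inl v ↦ true, inr _ ↦ false`. By SEM some term of `G` is always
satisfied, and its label is `runP`. By MEM, `runP = inr (j, M')` implies
`mem ... (j + 1) = some M'` and `Pe j M' = false`, so `qm (j + 1) M' < ε`: LGT for `B = Sum.isRight`.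
Length: LEN with `qm ≤ 1`. -/
def ThrStmt : Prop := ∀ (act : PM.View → ℕ) (c : ℕ) (x : List Bool) (m T : ℕ)
  (s : List (ℕ × Bool)) (ε : ℝ), (s.map Prod.fst).Nodup → (∀ p ∈ s, p.1 < m) → 0 < ε →
  ∃ V O : DList, NF m (2 * PM.bd c x) V ∧ NF m (2 * PM.bd c x) O ∧
    (V.length : ℝ) ≤ (1 + T * 2 ^ PM.bd c x) * (1 + T / ε) ∧
    (O.length : ℝ) ≤ (1 + T * 2 ^ PM.bd c x) * (1 + T / ε) ∧
    (∀ y : Fin m → Bool, DList.val y O = true →
      DList.val y V = PM.run act c x (ov s (PM.coins y)) T 0 []) ∧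
    pr (fun y : Fin m → Bool => DList.val y O = false) ≤ √ε * 4 ^ (2 * PM.bd c x)

/-- **TUP.** The tuple of an algorithm. (May assume `ThrStmt`; compare `CnvStmt`,
`Pool.Agent.Helper12.SX.cnvS`.)

Proof. `V j`, `O j` for the threads `j < r = A.r x`; `z.1 = V 0, ..., V (r-1), O 0, ..., O (r-1)`,
`z.2 = List.replicate (4 ^ r - 2 ^ r) false ++ (List.range (2 ^ r)).map fun q =>
A.out (x, (List.range r).map fun j => q.testBit j)`. If all `O j` are `true`, the index is
`4 ^ r - 2 ^ r + ∑ V j 2 ^ j`, otherwise it is smaller than `4 ^ r - 2 ^ r`. Union bound. -/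
def TupStmt : Prop := ∀ (A : PM.Machine) (c : ℕ) (x : List Bool) (s : List (ℕ × Bool)) (ε : ℝ)
  (l : ℕ), (s.map Prod.fst).Nodup → (∀ p ∈ s, p.1 < A.m x) → 0 < ε →
  (1 + (A.T x : ℝ) * 2 ^ PM.bd c x) * (1 + A.T x / ε) ≤ l →
  ∃ z : Tup, NFT (A.m x) (2 * PM.bd c x) l z ∧ z.1.length = 2 * A.r x ∧
    (∀ y : Fin (A.m x) → Bool, tv y z = true →
      A.out (x, PM.results A c x (ov s (PM.coins y))) = true) ∧
    phi A c x s ≤ fract (A.m x) z + A.r x * (√ε * 4 ^ (2 * PM.bd c x))

/-! ### Part C: the search -/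

/-- One step. -/
def stepM (g : List Bool × List (ℕ × Bool) × ℕ → ℕ) (x : List Bool) (b M n N : ℕ)
    (s : List (ℕ × Bool)) : List (ℕ × Bool) :=
  match (cands b M n s).find? fun e => decide (g (x, s, N) ≤ g (x, e ++ s, N) + 3) with
  | some e => e ++ s
  | none => s

/-- The state after `k` steps. -/
def stM (g : List Bool × List (ℕ × Bool) × ℕ → ℕ) (x : List Bool) (n N k : ℕ) :
    List (ℕ × Bool) :=
  (stepM g x (bb (lg N)) (MM N) n N)^[k] []

/-- **STM.** One step. (May assume `TupStmt`, `PgtStmt`, `CndStmt`, `AlnStmt`,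
`Pool.Agent.Helper52.SX.RttStmt`; adapt `Pool.Agent.Helper17.SX.set_stmt`.)

Proof. If `al (A.m x) s = []`, there are no candidates. Otherwise take `z` from TUP (`l = N`), and `e`
from PGT for `z`: `phi s ≤ fract z + r √ε 4^(2bd)`, `fract z ≤ fract (rstT e z) + loss`,
`fract (rstT e z) = pr (tv (ovr e y) z = true) ≤ phi (e ++ s)`, as
`ov s (coins (ovr e y)) = ov (e ++ s) (coins y)` for disjoint names. So `phi s ≤ phi (e ++ s) + 1/L^k`,
and `g s ≤ g (e ++ s) + 3`: the first candidate with this property is taken, and for it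
`phi s ≤ phi (e ++ s) + 5/L^k`. -/
def StmStmt : Prop := ∀ (A : PM.Machine) (c k : ℕ) (g : List Bool × List (ℕ × Bool) × ℕ → ℕ),
  CtM A c k g → ∀ (x : List Bool) (N W b u0 c1 M : ℕ) (ε : ℝ) (s : List (ℕ × Bool)),
  (s.map Prod.fst).Nodup → (∀ p ∈ s, p.1 < A.m x) → A.m x ≤ N → 2 * PM.bd c x ≤ W → 0 < ε →
  (1 + (A.T x : ℝ) * 2 ^ PM.bd c x) * (1 + A.T x / ε) ≤ N → 2 ≤ M → 1 ≤ c1 → 1 ≤ b →
  (N : ℝ) / M ≤ (1 / 2 ^ b) ^ (c1 + u0) →
  lossT (2 * A.r x) W b u0 c1 M N N + A.r x * (√ε * 4 ^ (2 * PM.bd c x)) ≤ 1 / (lg N : ℝ) ^ k →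
  ((stepM g x b M (A.m x) N s).map Prod.fst).Nodup ∧
  (∀ p ∈ stepM g x b M (A.m x) N s, p.1 < A.m x) ∧
  phi A c x s ≤ phi A c x (stepM g x b M (A.m x) N s) + 5 / (lg N : ℝ) ^ k ∧
  (al (A.m x) (stepM g x b M (A.m x) N s)).length * 2 ^ (b + 1) + (al (A.m x) s).length ≤
    (al (A.m x) s).length * 2 ^ (b + 1)

/-- The size parameter. -/
def NN (A : PM.Machine) (q : ℕ) (x : List Bool) : ℕ := (4 * (x.length + A.m x + A.T x) + 4) ^ q

/-- **NUM.** The numbers. (May assume `NutStmt`, for `e + 1`, and for `k` and `k + 1` in the place of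
its `c`.)

Proof. Let `B = 4 (X + m + T) + 4`, `bd = c log₂ X + c`, so `2 ^ bd ≤ B ^ c`, `q1 = 8 c + 4`,
`ε = B^(-q1)`, `q = 9 c + 10`, `N = B ^ q`. `(1 + T 2^bd)(1 + T/ε) ≤ B^(c+1) B^(q1+1) ≤ N`;
`√ε 4^(2 bd) ≤ B^(-2)`; `lg N ≥ 4 lg X`, `r ≤ lg X`, `(2 r)^(e+2) ≤ (lg N)^(e+1)` (as in FNU,
`Pool.Agent.Helper98.SX.fnu`); `r B^(-2) ≤ 1/(2 (lg N)^(k+4))` for large `N`;
`lossT ≤ 1/(lg N)^(k+5) ≤ 1/(2 (lg N)^(k+4))`. -/
def NumStmt : Prop := ∀ c e k : ℕ, ∃ q q1 L0 : ℕ, 1 ≤ q ∧ ∀ X m T r : ℕ,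
  r ^ (e + 1) ≤ lg X ^ e → L0 ≤ lg ((4 * (X + m + T) + 4) ^ q) →
  m ≤ (4 * (X + m + T) + 4) ^ q ∧ lg X ≤ lg ((4 * (X + m + T) + 4) ^ q) ∧
  2 * (c * Nat.log 2 X + c) ≤ 2 * c * lg ((4 * (X + m + T) + 4) ^ q) ∧
  (1 + (T : ℝ) * 2 ^ (c * Nat.log 2 X + c)) *
    (1 + T / (1 / (4 * ((X : ℝ) + m + T) + 4) ^ q1)) ≤ ((4 * (X + m + T) + 4) ^ q : ℕ) ∧
  2 ≤ MM ((4 * (X + m + T) + 4) ^ q) ∧
  (((4 * (X + m + T) + 4) ^ q : ℕ) : ℝ) / MM ((4 * (X + m + T) + 4) ^ q) ≤
    (1 / 2 ^ bb (lg ((4 * (X + m + T) + 4) ^ q))) ^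
      (k + 7 + uu (lg ((4 * (X + m + T) + 4) ^ q))) ∧
  lossT (2 * r) (2 * c * lg ((4 * (X + m + T) + 4) ^ q)) (bb (lg ((4 * (X + m + T) + 4) ^ q)))
      (uu (lg ((4 * (X + m + T) + 4) ^ q))) (k + 7) (MM ((4 * (X + m + T) + 4) ^ q))
      ((4 * (X + m + T) + 4) ^ q) ((4 * (X + m + T) + 4) ^ q) +
    r * (√(1 / (4 * ((X : ℝ) + m + T) + 4) ^ q1) * 4 ^ (2 * (c * Nat.log 2 X + c))) ≤
      1 / (lg ((4 * (X + m + T) + 4) ^ q) : ℝ) ^ (k + 4) ∧
  (TT (lg ((4 * (X + m + T) + 4) ^ q)) : ℝ) *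
      (5 / (lg ((4 * (X + m + T) + 4) ^ q) : ℝ) ^ (k + 4)) ≤
    1 / (4 * (lg ((4 * (X + m + T) + 4) ^ q) : ℝ) ^ k)

/-- **LPM.** The loop. (May assume `StmStmt`, `NumStmt`, `ItrStmt`; adapt
`Pool.Agent.Helper65.SX.lpt`.) -/
def LpmStmt : Prop := ∀ (A : PM.Machine) (c e k : ℕ)
  (g : List Bool × List (ℕ × Bool) × ℕ → ℕ), PM.Few e A → CtM A c (k + 4) g →
  ∃ q L0 : ℕ, 1 ≤ q ∧ ∀ x : List Bool, L0 ≤ lg (NN A q x) →
    A.m x ≤ NN A q x ∧ lg x.length ≤ lg (NN A q x) ∧
    ((stM g x (A.m x) (NN A q x) (TT (lg (NN A q x)))).map Prod.fst).Nodup ∧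
    (∀ p ∈ stM g x (A.m x) (NN A q x) (TT (lg (NN A q x))), p.1 < A.m x) ∧
    al (A.m x) (stM g x (A.m x) (NN A q x) (TT (lg (NN A q x)))) = [] ∧
    phi A c x [] ≤ phi A c x (stM g x (A.m x) (NN A q x) (TT (lg (NN A q x)))) +
      1 / (4 * (lg (NN A q x) : ℝ) ^ k)

/-- **FNM.** The end of the search. (Compare `Pool.Agent.Helper61.SX.fnt`.) -/
def FnmStmt : Prop := ∀ (A : PM.Machine) (c : ℕ) (x : List Bool) (s : List (ℕ × Bool)),
  (s.map Prod.fst).Nodup → (∀ p ∈ s, p.1 < A.m x) → al (A.m x) s = [] → 0 < phi A c x s →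
  ∃ y : Fin (A.m x) → Bool, A.out (x, PM.results A c x (PM.coins y)) = true ∧
    asg (A.m x) s = List.ofFn y

/-- **PLM.** The search in polynomial time. (May assume `PtxStmt`, `CndStmt`,
`Pool.Agent.Helper78.DT.PtlStmt`; adapt `Pool.Agent.Helper2.SX.plt`, which is the same without
restriction of lists.) -/
def PlmStmt : Prop := ∀ (g : List Bool × List (ℕ × Bool) × ℕ → ℕ) (n N : List Bool → ℕ),
  PolyTime g → PolyTime n → PolyTime N →
  PolyTime fun x => asg (n x) (stM g x (n x) (N x) (TT (lg (N x))))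

/-- **BRM.** Brute force for few coins. (Use `PM.PmrStmt`, `PM.PmtStmt`:
`Pool.Agent.Helper79.PM.pmr`, `Pool.Agent.Helper89.PM.pmt`; compare `Pool.Agent.Helper85.SX.brt`.) -/
def BrmStmt : Prop := ∀ (A : PM.Machine) (c M : ℕ), ∃ h : List Bool → List Bool, PolyTime h ∧
  ∀ x, A.m x ≤ M →
    (∃ y : Fin (A.m x) → Bool, A.out (x, PM.results A c x (PM.coins y)) = true) →
    ∃ y : Fin (A.m x) → Bool, A.out (x, PM.results A c x (PM.coins y)) = true ∧ h x = List.ofFn y

/-- **FAN.** Search for coins with the answer `true`. (May assume `CtmStmt` with its hypothesis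
`∀ c e k, PM.Approximable c e k`, `LpmStmt`, `FnmStmt`, `PlmStmt`, `BrmStmt`; adapt
`Pool.Agent.Helper67.SX.flt`.)

Proof. `g` from CTM for `k + 4`; `q`, `L0` from LPM; brute force with `M = 2 ^ L0` if `lg N < L0`
(`A.m x ≤ N < 2 ^ lg N`, as `1 ≤ q`). The fraction: `acc / 2 ^ m = phi [] ≥ 1/(lg |x|)^k ≥ 1/(lg N)^k`. -/
def FanStmt : Prop := ∀ c e k : ℕ, FindsAnswers c e k

end Pool.Agent.Helper52.SM
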