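import Pool.Agent.Helper52.SX.Final
import Pool.Agent.Helper78.PM.Final
import Pool.Agent.Helper78.SM.PartA
import Pool.Agent.Helper81.SM.LVM
import Pool.Agent.Helper17.SM.SEM
import Pool.Agent.Helper60.SM.LEN
import Pool.Agent.Helper13.SM.CLG
import Pool.Agent.Helper30.SM.LGT
import Pool.Agent.Helper62.SM.THR
import Pool.Agent.Helper97.SM.TUP
import Pool.Agent.Helper24.SM.STM
import Pool.Agent.Helper73.SM.PLM
import Pool.Agent.Helper44.SM.BRM
import Pool.Agent.Helper26.SM.FAN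
import Pool.Agent.Helper66.SM.MEM
import Pool.Agent.Helper12.SM.FNM
import Pool.Agent.Helper40.SM.NUM
import Pool.Agent.Helper96.SM.LPM

/-!
# Search for coins for the algorithms of ParallelMemory: the assembly
-/

namespace Pool.Agent.Helper52.SM

open Pool.Agent.Helper78.DT Pool.Agent.Helper65.CS Pool.Agent.Helper52.SX

theorem thrS : ThrStmt :=
  Pool.Agent.Helper62.SM.thr (Pool.Agent.Helper17.SM.sem Pool.Agent.Helper81.SM.lvm)
    Pool.Agent.Helper66.SM.mem_stmt (Pool.Agent.Helper60.SM.len Pool.Agent.Helper81.SM.lvm)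
    Pool.Agent.Helper13.SM.clgS (Pool.Agent.Helper30.SM.lgt keyS)

theorem stmS : StmStmt :=
  Pool.Agent.Helper24.SM.stm (Pool.Agent.Helper97.SM.tup thrS)
    (Pool.Agent.Helper4.SX.pgt sttS rttS Pool.Agent.Helper8.SX.tdt Pool.Agent.Helper51.CS.cnd)
    rttS Pool.Agent.Helper51.CS.cnd Pool.Agent.Helper61.CS.aln

theorem lpmS : LpmStmt :=
  Pool.Agent.Helper96.SM.lpm stmS (Pool.Agent.Helper40.SM.num Pool.Agent.Helper44.SX.nut)
    Pool.Agent.Helper8.CS.itr

theorem findsAnswers : ∀ c e k : ℕ, FindsAnswers c e k :=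
  Pool.Agent.Helper26.SM.fan (Pool.Agent.Helper78.SM.ctm Pool.Agent.Helper78.SM.rmcS)
    (fun c e k => (Pool.Agent.Helper78.PM.main c e k).1) lpmS Pool.Agent.Helper12.SM.fnmS
    (Pool.Agent.Helper73.SM.plm ptxS Pool.Agent.Helper51.CS.cnd Pool.Agent.Helper3.DT.ptl)
    Pool.Agent.Helper44.SM.brm

end Pool.Agent.Helper52.SM
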